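import Pool.Agent.H6.ExtSE

/-! `ext_D(ℝ², SE(2)) = 4`, the plane being `ℂ`. -/

namespace Pool.Agent.Results.MP_8e2340_co.Q1

open Pool.Agent.H6.Ext

theorem result : distNum SE2 = 2 ∧ ext SE2 = 4 := ⟨se2_distNum, se2_ext⟩

end Pool.Agent.Results.MP_8e2340_co.Q1
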